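import Pool.Agent.Lib.MP_2847c2_co.GB.Final2

/-!
# Hexahedral meshes with planar faces need sheets of large genus

The box `[0, 6N] × [0, 6] × [0, 6]` with the surface mesh `boxB t`: the `4N + 2` outer faces of its `N`
cubes of side `6`, where the top square number `k` is refined by two nested quadrilaterals with the
vertices `± (t (k,0), t (k,1))`, `± (t (k,2), t (k,3))` and `± (t (k,4), t (k,5))`,
`± (t (k,6), t (k,7))` about its centre into nine quadrilaterals; together `12N + 2` quadrilaterals.
Topologically `3N` cubes are enough to fill it, and then all sheets (dual surfaces) are discs.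

`Cl C B` is the space of the closed real `1`-cochains, without periods on the boundary circles, on the
surface formed by the sides of the sheets of the mesh `C`, and `Ex C` the space of the exact
`1`-cochains. So `dim Cl - dim Ex` is twice the total genus of the sides of the sheets.
-/

namespace Pool.Agent.Results.MP_2847c2_co.GenusBound

open Pool.Agent.Lib.MP_2847c2_co Pool.Agent.Lib.MP_2847c2_co.GB Filter Topology

/-- For all `t` near `t0 N` the quadrilaterals of the surface mesh `boxB t` are planar and those in the
top squares are strictly convex and positively oriented; if moreover the numbers `t (k, i)` are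
algebraically independent over `ℚ`, then every hexahedral mesh with planar faces which is compatible
with `boxB t` satisfies `dim Cl - dim Ex ≥ 2N`: the total genus of the sides of its sheets is at least
`N`. Such `t` exist in every neighbourhood of `t0 N`. -/
theorem result (N : ℕ) :
    (∀ᶠ t in 𝓝 (t0 N), (∀ x, Planar (boxB t x)) ∧
      (∀ (k : Fin N) (j : Fin 9) (r : Fin 4), 0 < lam (fun i => t (k, i)) j r) ∧
      (AlgebraicIndependent ℚ t → ∀ (ι : Type) [Fintype ι] (C : ι → Hexa), IsMesh C (boxB t) →
        Ex C ≤ Cl C (boxB t) ∧
        Module.finrank ℝ (Ex C) + 2 * N ≤ Module.finrank ℝ (Cl C (boxB t)))) ∧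
    ∀ U ∈ 𝓝 (t0 N), ∃ t ∈ U, AlgebraicIndependent ℚ t := by
  refine ⟨?_, fun U hU => exists_algInd_near (t0 N) hU⟩
  have hpos : ∀ᶠ t in 𝓝 (t0 N), ∀ (k : Fin N) (j : Fin 9) (r : Fin 4),
      0 < lam (fun i => t (k, i)) j r := by
    rw [eventually_all]
    intro k
    have hc : Tendsto (fun t : Fin N × Fin 8 → ℝ => fun i => t (k, i)) (𝓝 (t0 N)) (𝓝 u0) := by
      have h : Continuous (fun t : Fin N × Fin 8 → ℝ => fun i : Fin 8 => t (k, i)) := by fun_prop
      exact h.tendsto (t0 N)
    exact hc.eventually lam_pos_near
  filter_upwards [hpos, genus_box_near2 N] with t h1 h2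
  refine ⟨boxB_planar t, h1, fun hind ι _ C hm => ?_⟩
  have h3 : Ex C ≤ Cl C (boxB t) := ex_le hm
  have h4 := h2 hind ι C hm
  have h5 : Module.finrank ℝ (Ex C) ≤ Module.finrank ℝ (Cl C (boxB t)) := Submodule.finrank_mono h3
  simp only [genus2] at h4
  exact ⟨h3, by omega⟩

end Pool.Agent.Results.MP_2847c2_co.GenusBound
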