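import Pool.Agent.Lib.MP_2847c2_co.GB.Mesh

/-!
# The second order law for the boundary of a hexahedral mesh with planar faces

For a planar quadrilateral `(a, b, c, d)` let `λ(b)`, `λ(c)` be the squared areas (up to the factor `4`)
of the triangles `a d c`, `a d b` which are left if `b`, `c` is removed. `ld D x = D x / x`.
-/

namespace Pool.Agent.Results.MP_2847c2_co.SecondOrderLaw

open Pool.Agent.Lib.MP_2847c2_co Pool.Agent.Lib.MP_2847c2_co.GB

/-- Let `D`, `E` be derivations of the field `ℝ` and let `f` be a function of directed edges with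
`f(d, c) - f(a, b) = D log λ(b) - D log λ(c)` for all faces `(a, b, c, d)` of the cells of a hexahedral
mesh with planar faces. Then the sum of `f(a, b) E log λ(b) - f(d, c) E log λ(c)` over the boundary
quadrilaterals, taken with all four choices of the first vertex, is zero. -/
theorem result (ι κ : Type) [Fintype ι] [Fintype κ] (C : ι → Hexa) (B : κ → Quad)
    (hm : IsMesh C B) (D E : Derivation ℚ ℝ ℝ) (f : P3 × P3 → ℝ)
    (hf : ∀ p : ι × (Fin 6 × Fin 4), wtD D (outFace (C p.1) p.2) =
      f (e2 (outFace (C p.1) p.2)) - f (e1 (outFace (C p.1) p.2))) :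
    ∑ k, t2 E f (B k) = 0 :=
  mesh_law2 hm D E f hf

end Pool.Agent.Results.MP_2847c2_co.SecondOrderLaw
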