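import Pool.Agent.Lib.MP_2847c2_co.MeshLaw

/-!
# A law for the boundary of a hexahedral mesh with planar faces

The sheets (dual surfaces) of a hexahedral mesh consist of the edges of the mesh, where two edges are
joined if they are opposite edges of a face; a side of a sheet is a class of directed edges
(`SameSide`). For a planar quadrilateral `(a, b, c, d)` let `wt (a, b, c, d)` be
`2 log (dist (c, a d) / dist (b, a d))`.
-/

namespace Pool.Agent.Results.MP_2847c2_co.SheetLaw

open Pool.Agent.Lib.MP_2847c2_co

/-- In every hexahedral mesh with planar faces and for every side of every sheet (more generally for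
every function `f` of directed edges which is constant on the sides of the sheets) the weights of the
boundary quadrilaterals add up to zero. -/
theorem result (ι κ : Type) [Fintype ι] [Fintype κ] (C : ι → Hexa) (B : κ → Quad)
    (hm : IsMesh C B) (f : P3 × P3 → ℝ) (hf : ∀ e e', SameSide C e e' → f e = f e') :
    ∑ k, f ((B k).1, (B k).2.1) * wt (B k) = 0 :=
  law C B hm (fun x y => f (x, y)) (fun p => hf _ _ (Relation.EqvGen.rel _ _ ⟨p, rfl, rfl⟩))

end Pool.Agent.Results.MP_2847c2_co.SheetLaw
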