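import Pool.Agent.Lib.MP_2847c2_co.OpenSet

/-!
# Hexahedral meshes with planar faces of warped bicuboids

A bicuboid is a quadrilateral surface mesh which is combinatorially the boundary of two cubes glued
along a face (ten quadrilaterals, twelve vertices). The sheets (dual surfaces) of a hexahedral mesh
consist of the edges of the mesh, where two edges are joined if they are opposite edges of a face; a
side of a sheet is a class of directed edges (`SameSide`).
-/

namespace Pool.Agent.Results.MP_2847c2_co.WarpedBicuboid

open Pool.Agent.Lib.MP_2847c2_co Filter Topology

/-- In every hexahedral mesh with planar faces whose boundary is a generic bicuboid all directed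
boundary edges, in both directions, lie on one and the same side of one sheet: one sheet meets the
boundary, it is one-sided and crosses itself in each of the ten boundary quadrilaterals. All
bicuboids with planar faces near the explicit bicuboid `exP` (with integer coordinates) are convex,
have a middle quadrilateral which is not planar, and are generic. -/
theorem result :
    (∀ p, Generic p → ∀ (ι : Type) [Fintype ι] (C : ι → Hexa), IsMesh C (bicB p) → ∀ k k',
      SameSide C (fstEdge (bicB p k)) (fstEdge (bicB p k')) ∧
      SameSide C (fstEdge (bicB p k)) (fstEdge (bicB p k')).swap) ∧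
    (∀ k, Planar (bicB exP k)) ∧
    (∀ᶠ p in 𝓝 exP, (∀ k, Planar (bicB p k)) →
      ConvexBic p ∧ ¬ Planar (p 4, p 5, p 6, p 7) ∧ Generic p) := by
  refine ⟨?_, exP_convex.1, ?_⟩
  · intro p hp ι _ C hm k k'
    refine ⟨bic_rigid p hp C hm k k', ?_⟩
    have h := bic_rigid p hp C hm k (Bic.rv k')
    have e : fstEdge (bicB p (Bic.rv k')) = (fstEdge (bicB p k')).swap := by
      simp only [fstEdge, bicB, (Bic.rv_spec k').1, (Bic.rv_spec k').2, Prod.swap_prod_mk]
    rwa [e] at h
  · filter_upwards [eventually_generic, eventually_convex, eventually_warped] with p h1 h2 h3 hpl
    exact ⟨h2 hpl, h3, h1⟩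

end Pool.Agent.Results.MP_2847c2_co.WarpedBicuboid
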